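import Pool.Agent.BE01.StmtsC

/-!
# Squad BE01, module CHN: chain rule in `H^1_0`
-/

namespace Pool.Agent.BE01.H69

open Set Filter Topology MeasureTheory
open scoped InnerProductSpace ENNReal

/-! ## gradients of test functions -/

theorem grad_add {d : ℕ} {f g : En d → ℝ} (hf : ContDiff ℝ ((⊤ : ℕ∞) : WithTop ℕ∞) f)
    (hg : ContDiff ℝ ((⊤ : ℕ∞) : WithTop ℕ∞) g) (x : En d) :
    gradient (fun y => f y + g y) x = gradient f x + gradient g x := by
  have h1 : DifferentiableAt ℝ f x := (hf.differentiable (by simp)) x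
  have h2 : DifferentiableAt ℝ g x := (hg.differentiable (by simp)) x
  unfold gradient
  rw [fderiv_fun_add h1 h2, map_add]

theorem grad_smul {d : ℕ} {f : En d → ℝ} (hf : ContDiff ℝ ((⊤ : ℕ∞) : WithTop ℕ∞) f)
    (c : ℝ) (x : En d) :
    gradient (fun y => c * f y) x = c • gradient f x := by
  have h1 : DifferentiableAt ℝ f x := (hf.differentiable (by simp)) x
  unfold gradient
  rw [fderiv_const_mul h1]
  simp

theorem grad_chain {d : ℕ} {f : En d → ℝ} (hf : ContDiff ℝ ((⊤ : ℕ∞) : WithTop ℕ∞) f)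
    {Φ : ℝ → ℝ} (hΦ : ContDiff ℝ ((⊤ : ℕ∞) : WithTop ℕ∞) Φ) (x : En d) :
    gradient (fun y => Φ (f y)) x = deriv Φ (f x) • gradient f x := by
  have h1 : DifferentiableAt ℝ f x := (hf.differentiable (by simp)) x
  have h2 : HasDerivAt Φ (deriv Φ (f x)) (f x) :=
    ((hΦ.differentiable (by simp)) (f x)).hasDerivAt
  have h3 : HasFDerivAt (Φ ∘ f) (deriv Φ (f x) • fderiv ℝ f x) x :=
    h2.comp_hasFDerivAt x h1.hasFDerivAt
  have h4 : fderiv ℝ (fun y => Φ (f y)) x = deriv Φ (f x) • fderiv ℝ f x := h3.fderiv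
  unfold gradient
  rw [h4]
  simp

theorem grad_memLp {d : ℕ} {Ω : Set (En d)} {ψ : En d → ℝ} (h : Tst Ω ψ) :
    MemLp (gradient ψ) 2 (mu Ω) := by
  have h1 : Continuous (fderiv ℝ ψ) := h.1.continuous_fderiv (by simp)
  have h2 : Continuous (gradient ψ) :=
    (InnerProductSpace.toDual ℝ (En d)).symm.continuous.comp h1
  have h3 : HasCompactSupport (fderiv ℝ ψ) := h.2.1.fderiv ℝ
  have h4 : HasCompactSupport (gradient ψ) := by
    have := h3.comp_left (g := (InnerProductSpace.toDual ℝ (En d)).symm) (map_zero _)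
    exact this
  have h5 : MemLp (gradient ψ) 2 (volume : Measure (En d)) := h2.memLp_of_hasCompactSupport h4
  exact h5.restrict Ω

/-- The classes of the gradients of the test functions. -/
def WW {d : ℕ} (Ω : Set (En d)) : Submodule ℝ (Lp (En d) 2 (mu Ω)) where
  carrier := {G : Lp (En d) 2 (mu Ω) | ∃ ψ, Tst Ω ψ ∧ G =ᵐ[mu Ω] gradient ψ}
  zero_mem' := by
    refine ⟨fun _ => 0, ⟨contDiff_const, HasCompactSupport.zero, by simp [tsupport]⟩, ?_⟩
    have h1 := Lp.coeFn_zero (En d) 2 (mu Ω)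
    filter_upwards [h1] with x hx
    rw [hx, gradient_fun_const]
    rfl
  add_mem' := by
    rintro A B ⟨ψ, hψ, hA⟩ ⟨χ, hχ, hB⟩
    refine ⟨fun y => ψ y + χ y, ⟨hψ.1.add hχ.1, hψ.2.1.add hχ.2.1, ?_⟩, ?_⟩
    · exact (tsupport_add ψ χ).trans (union_subset hψ.2.2 hχ.2.2)
    · filter_upwards [Lp.coeFn_add A B, hA, hB] with x h1 h2 h3
      rw [h1, grad_add hψ.1 hχ.1, Pi.add_apply, h2, h3]
  smul_mem' := by
    rintro c A ⟨ψ, hψ, hA⟩
    refine ⟨fun y => c * ψ y, ⟨contDiff_const.mul hψ.1, hψ.2.1.mul_left, ?_⟩, ?_⟩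
    · exact (tsupport_mul_subset_right (f := fun _ => c) (g := ψ)).trans hψ.2.2
    · filter_upwards [Lp.coeFn_smul c A, hA] with x h1 h2
      rw [h1, grad_smul hψ.1, Pi.smul_apply, h2]

theorem mem_VV_iff {d : ℕ} (Ω : Set (En d)) (G : Lp (En d) 2 (mu Ω)) :
    G ∈ VV Ω ↔ G ∈ closure {G : Lp (En d) 2 (mu Ω) | ∃ ψ, Tst Ω ψ ∧ G =ᵐ[mu Ω] gradient ψ} := by
  have h1 : Submodule.span ℝ {G : Lp (En d) 2 (mu Ω) | ∃ ψ, Tst Ω ψ ∧ G =ᵐ[mu Ω] gradient ψ} =
      WW Ω := Submodule.span_eq (WW Ω)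
  unfold VV
  rw [h1, ← SetLike.mem_coe, Submodule.topologicalClosure_coe]
  rfl

theorem VV_closed {d : ℕ} (Ω : Set (En d)) : IsClosed (VV Ω : Set (Lp (En d) 2 (mu Ω))) :=
  Submodule.isClosed_topologicalClosure _

theorem tst_comp {d : ℕ} {Ω : Set (En d)} {ψ : En d → ℝ} (h : Tst Ω ψ) {Φ : ℝ → ℝ}
    (hΦ : ContDiff ℝ ((⊤ : ℕ∞) : WithTop ℕ∞) Φ) (h0 : Φ 0 = 0) : Tst Ω (fun y => Φ (ψ y)) := by
  refine ⟨hΦ.comp h.1, h.2.1.comp_left h0, ?_⟩
  exact (closure_mono (Function.support_comp_subset h0 ψ)).trans h.2.2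

/-! ## multiplication by a bounded function of an element of `L^6` -/

theorem memLp_mul {d : ℕ} {Ω : Set (En d)} {φ : ℝ → ℝ} (hφ : Continuous φ) {M : ℝ}
    (hM : ∀ s, |φ s| ≤ M) (y : Lp ℝ 6 (mu Ω)) (g : Lp (En d) 2 (mu Ω)) :
    MemLp (fun x => φ (y x) • g x) 2 (mu Ω) := by
  refine MemLp.of_le_mul (c := M) (Lp.memLp g) ?_ ?_
  · exact (hφ.comp_aestronglyMeasurable (Lp.aestronglyMeasurable y)).smul
      (Lp.aestronglyMeasurable g)
  · refine Eventually.of_forall fun x => ?_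
    rw [norm_smul]
    exact mul_le_mul_of_nonneg_right (hM _) (norm_nonneg _)

/-- The product. -/
noncomputable def prd {d : ℕ} {Ω : Set (En d)} {φ : ℝ → ℝ} (hφ : Continuous φ) {M : ℝ}
    (hM : ∀ s, |φ s| ≤ M) (y : Lp ℝ 6 (mu Ω)) (g : Lp (En d) 2 (mu Ω)) : Lp (En d) 2 (mu Ω) :=
  (memLp_mul hφ hM y g).toLp _

theorem prd_coe {d : ℕ} {Ω : Set (En d)} {φ : ℝ → ℝ} (hφ : Continuous φ) {M : ℝ}
    (hM : ∀ s, |φ s| ≤ M) (y : Lp ℝ 6 (mu Ω)) (g : Lp (En d) 2 (mu Ω)) :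
    prd hφ hM y g =ᵐ[mu Ω] fun x => φ (y x) • g x := MemLp.coeFn_toLp _

theorem prd_lim {d : ℕ} {Ω : Set (En d)} {φ : ℝ → ℝ} (hφ : Continuous φ) {M : ℝ}
    (hM : ∀ s, |φ s| ≤ M) (y : ℕ → Lp ℝ 6 (mu Ω)) (y0 : Lp ℝ 6 (mu Ω))
    (g : ℕ → Lp (En d) 2 (mu Ω)) (g0 : Lp (En d) 2 (mu Ω))
    (hy : ∀ᵐ x ∂(mu Ω), Tendsto (fun n => y n x) atTop (𝓝 (y0 x)))
    (hg : Tendsto g atTop (𝓝 g0)) :
    Tendsto (fun n => prd hφ hM (y n) (g n)) atTop (𝓝 (prd hφ hM y0 g0)) := by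
  have hM0 : 0 ≤ M := (abs_nonneg _).trans (hM 0)
  -- first part
  have h1 : ∀ n, ‖prd hφ hM (y n) (g n) - prd hφ hM (y n) g0‖ ≤ M * ‖g n - g0‖ := by
    intro n
    refine Lp.norm_le_mul_norm_of_ae_le_mul ?_
    filter_upwards [Lp.coeFn_sub (prd hφ hM (y n) (g n)) (prd hφ hM (y n) g0),
      Lp.coeFn_sub (g n) g0, prd_coe hφ hM (y n) (g n), prd_coe hφ hM (y n) g0]
      with x e1 e2 e3 e4
    rw [e1, e2, Pi.sub_apply, Pi.sub_apply, e3, e4, ← smul_sub, norm_smul]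
    exact mul_le_mul_of_nonneg_right (hM _) (norm_nonneg _)
  have h2 : Tendsto (fun n => prd hφ hM (y n) (g n) - prd hφ hM (y n) g0) atTop (𝓝 0) := by
    rw [tendsto_zero_iff_norm_tendsto_zero]
    refine squeeze_zero (fun n => norm_nonneg _) h1 ?_
    have h3 : Tendsto (fun n => ‖g n - g0‖) atTop (𝓝 0) := by
      have := (tendsto_sub_nhds_zero_iff.mpr hg).norm
      simpa using this
    simpa using h3.const_mul M
  -- second part: dominated convergence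
  have h4 : Tendsto (fun n => prd hφ hM (y n) g0) atTop (𝓝 (prd hφ hM y0 g0)) := by
    rw [Lp.tendsto_Lp_iff_tendsto_eLpNorm']
    have h5 : ∀ n, eLpNorm (prd hφ hM (y n) g0 - prd hφ hM y0 g0 : En d → En d) 2 (mu Ω) =
        (∫⁻ x, ‖(φ (y n x) - φ (y0 x)) • g0 x‖ₑ ^ (2 : ℝ) ∂(mu Ω)) ^ (1 / (2 : ℝ)) := by
      intro n
      rw [eLpNorm_eq_lintegral_rpow_enorm_toReal (by simp) (by simp)]
      have : (2 : ℝ≥0∞).toReal = 2 := by simp
      rw [this]
      congr 1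
      refine lintegral_congr_ae ?_
      filter_upwards [prd_coe hφ hM (y n) g0, prd_coe hφ hM y0 g0] with x e1 e2
      rw [Pi.sub_apply, e1, e2, ← sub_smul]
    simp only [h5]
    have h6 : Tendsto (fun n => ∫⁻ x, ‖(φ (y n x) - φ (y0 x)) • g0 x‖ₑ ^ (2 : ℝ) ∂(mu Ω)) atTop
        (𝓝 (∫⁻ x, 0 ∂(mu Ω))) := by
      refine tendsto_lintegral_of_dominated_convergence'
        (fun x => ‖(2 * M) • g0 x‖ₑ ^ (2 : ℝ)) ?_ ?_ ?_ ?_
      · intro n
        exact ((((hφ.comp_aestronglyMeasurable (Lp.aestronglyMeasurable (y n))).sub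
          (hφ.comp_aestronglyMeasurable (Lp.aestronglyMeasurable y0))).smul
          (Lp.aestronglyMeasurable g0)).enorm).pow_const _
      · intro n
        refine Eventually.of_forall fun x => ?_
        refine ENNReal.rpow_le_rpow ?_ (by norm_num)
        rw [enorm_le_iff_norm_le, norm_smul, norm_smul]
        refine mul_le_mul_of_nonneg_right ?_ (norm_nonneg _)
        rw [Real.norm_eq_abs, Real.norm_eq_abs, abs_of_nonneg (by positivity : 0 ≤ 2 * M)]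
        have a1 := hM (y n x)
        have a2 := hM (y0 x)
        have a3 := abs_sub (φ (y n x)) (φ (y0 x))
        linarith
      · have h7 : MemLp (fun x => (2 * M) • g0 x) 2 (mu Ω) := by
          have := (Lp.memLp g0).const_smul (2 * M)
          exact this
        have h8 := lintegral_rpow_enorm_lt_top_of_eLpNorm_lt_top (by simp) (by simp)
          h7.eLpNorm_lt_top
        have : (2 : ℝ≥0∞).toReal = 2 := by simp
        rw [this] at h8
        exact h8.ne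
      · filter_upwards [hy] with x hx
        have e1 : Tendsto (fun n => (φ (y n x) - φ (y0 x)) • g0 x) atTop (𝓝 0) := by
          have e2 : Tendsto (fun n => φ (y n x) - φ (y0 x)) atTop (𝓝 0) := by
            have e3 := (hφ.tendsto (y0 x)).comp hx
            have e4 := e3.sub_const (φ (y0 x))
            simpa using e4
          simpa using e2.smul_const (g0 x)
        have e5 : Tendsto (fun n => ‖(φ (y n x) - φ (y0 x)) • g0 x‖ₑ) atTop (𝓝 0) := by
          have := e1.enorm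
          simpa using this
        have e6 := ((ENNReal.continuous_rpow_const (y := (2 : ℝ))).tendsto 0).comp e5
        rw [ENNReal.zero_rpow_of_pos (by norm_num)] at e6
        exact e6
    have h9 := ((ENNReal.continuous_rpow_const (y := 1 / (2 : ℝ))).tendsto
      (∫⁻ x, 0 ∂(mu Ω))).comp h6
    rw [lintegral_zero, ENNReal.zero_rpow_of_pos (by norm_num)] at h9
    exact h9
  have h10 := h2.add h4
  simpa using h10

theorem chn : ChnStmt := by
  intro d Ω ι Φ M hΩ hι hΦ h0 hM G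
  have hd : Continuous (deriv Φ) := hΦ.continuous_deriv (by simp)
  have hM0 : 0 ≤ M := (abs_nonneg _).trans (hM 0)
  have hLip : LipschitzWith ⟨M, hM0⟩ Φ :=
    lipschitzWith_of_nnnorm_deriv_le (hΦ.differentiable (by simp)) (fun s => hM s)
  -- the approximating sequence
  have hG : (G : Lp (En d) 2 (mu Ω)) ∈
      closure {G : Lp (En d) 2 (mu Ω) | ∃ ψ, Tst Ω ψ ∧ G =ᵐ[mu Ω] gradient ψ} :=
    (mem_VV_iff Ω _).mp G.2
  obtain ⟨g, hg, hgG⟩ := mem_closure_iff_seq_limit.mp hG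
  choose ψ hψ hgψ using hg
  have hgV : ∀ n, g n ∈ VV Ω := fun n =>
    (mem_VV_iff Ω _).mpr (subset_closure ⟨ψ n, hψ n, hgψ n⟩)
  let g' : ℕ → VV Ω := fun n => ⟨g n, hgV n⟩
  have hg' : Tendsto g' atTop (𝓝 G) := tendsto_subtype_rng.mpr hgG
  have hy : Tendsto (fun n => ι (g' n)) atTop (𝓝 (ι G)) := (ι.continuous.tendsto G).comp hg'
  have hyψ : ∀ n, ι (g' n) =ᵐ[mu Ω] ψ n := fun n => hι (ψ n) (hψ n) (g' n) (hgψ n)
  -- subsequence
  obtain ⟨s, hs, hae⟩ := (tendstoInMeasure_of_tendsto_Lp hy).exists_seq_tendsto_ae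
  -- the gradients of the compositions
  have hmem : ∀ n, ∃ H : VV Ω, (H : Lp (En d) 2 (mu Ω)) =ᵐ[mu Ω]
      gradient (fun y => Φ (ψ n y)) := by
    intro n
    have h1 := grad_memLp (tst_comp (hψ n) hΦ h0)
    refine ⟨⟨h1.toLp _, (mem_VV_iff Ω _).mpr (subset_closure
      ⟨_, tst_comp (hψ n) hΦ h0, h1.coeFn_toLp⟩)⟩, h1.coeFn_toLp⟩
  choose H hH using hmem
  have hHprd : ∀ n, (H n : Lp (En d) 2 (mu Ω)) = prd hd hM (ι (g' n)) (g n) := by
    intro n
    refine Lp.ext ?_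
    filter_upwards [hH n, prd_coe hd hM (ι (g' n)) (g n), hyψ n, hgψ n] with x e1 e2 e3 e4
    rw [e1, e2, grad_chain (hψ n).1 hΦ, e3, e4]
  have hHlim : Tendsto (fun n => (H (s n) : Lp (En d) 2 (mu Ω))) atTop
      (𝓝 (prd hd hM (ι G) (G : Lp (En d) 2 (mu Ω)))) := by
    simp only [hHprd]
    exact prd_lim hd hM (fun n => ι (g' (s n))) (ι G) (fun n => g (s n)) _ hae
      (hgG.comp hs.tendsto_atTop)
  have hL : prd hd hM (ι G) (G : Lp (En d) 2 (mu Ω)) ∈ VV Ω :=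
    (VV_closed Ω).mem_of_tendsto hHlim (Eventually.of_forall fun n => (H (s n)).2)
  let L : VV Ω := ⟨_, hL⟩
  have hHL : Tendsto (fun n => H (s n)) atTop (𝓝 L) := tendsto_subtype_rng.mpr hHlim
  have h1 : Tendsto (fun n => ι (H (s n))) atTop (𝓝 (ι L)) := (ι.continuous.tendsto L).comp hHL
  have h2 : ∀ n, ι (H n) = hLip.compLp h0 (ι (g' n)) := by
    intro n
    refine Lp.ext ?_
    filter_upwards [hι _ (tst_comp (hψ n) hΦ h0) (H n) (hH n),
      hLip.coeFn_compLp h0 (ι (g' n)), hyψ n] with x e1 e2 e3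
    rw [e1, e2, Function.comp_apply, e3]
  have h3 : Tendsto (fun n => ι (H (s n))) atTop (𝓝 (hLip.compLp h0 (ι G))) := by
    simp only [h2]
    exact ((hLip.continuous_compLp h0).tendsto (ι G)).comp (hy.comp hs.tendsto_atTop)
  have h4 : ι L = hLip.compLp h0 (ι G) := tendsto_nhds_unique h1 h3
  refine ⟨L, ?_, prd_coe hd hM (ι G) _⟩
  rw [h4]
  exact hLip.coeFn_compLp h0 (ι G)

end Pool.Agent.BE01.H69
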