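import Pool.Agent.BE01.StmtsC

/-!
# Squad BE01, module FRE: Fredholm alternative, also at a simple eigenvalue
-/

namespace Pool.Agent.BE01.H69

open Set Filter Topology MeasureTheory
open scoped InnerProductSpace ENNReal

/-- Fredholm alternative in the form used here. -/
theorem fre_aux {H : Type} [NormedAddCommGroup H] [InnerProductSpace ℝ H]
    [CompleteSpace H] (T : H →L[ℝ] H) (hT : IsCompactOperator T)
    (hinj : ∀ u, u = T u → u = 0) (F : H) : ∃ q : H, q - T q = F := by
  rcases hT.hasEigenvalue_or_mem_resolventSet (μ := (1 : ℝ)) one_ne_zero with h | h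
  · exfalso
    obtain ⟨v, hv⟩ := h.exists_hasEigenvector
    have h1 : T v = v := by
      have := hv.apply_eq_smul
      simpa using this
    exact hv.2 (hinj v h1.symm)
  · rw [spectrum.mem_resolventSet_iff, ContinuousLinearMap.isUnit_iff_bijective] at h
    obtain ⟨q, hq⟩ := h.2 F
    refine ⟨q, ?_⟩
    simpa using hq

theorem fre : FreStmt := by
  intro H _ _ _ S l hS hsym
  have hlS : IsCompactOperator (l • S : H →L[ℝ] H) := by
    have := hS.smul l
    simpa using this
  refine ⟨?_, ?_⟩
  · intro hinj F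
    obtain ⟨q, hq⟩ := fre_aux (l • S) hlS (fun u hu => hinj u (by simpa using hu)) F
    exact ⟨q, by simpa using hq⟩
  · intro φ hφ hφl hsim F hF
    have hn : ‖φ‖ ^ 2 ≠ 0 := by
      have : ‖φ‖ ≠ 0 := norm_ne_zero_iff.mpr hφ
      positivity
    -- the rank one operator
    let P : H →L[ℝ] H := (ContinuousLinearMap.toSpanSingleton ℝ φ).comp (innerSL ℝ φ)
    have hPval : ∀ h, P h = ⟪φ, h⟫_ℝ • φ := by
      intro h
      simp [P]
    have hP : IsCompactOperator P := by
      have h1 : IsCompactOperator (innerSL ℝ φ : H →L[ℝ] ℝ) :=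
        isCompactOperator_of_locallyCompactSpace_dom (innerSL ℝ φ : H →L[ℝ] ℝ)
      exact h1.clm_comp (ContinuousLinearMap.toSpanSingleton ℝ φ)
    have hT : IsCompactOperator (l • S - P : H →L[ℝ] H) := by
      have := hlS.sub hP
      simpa using this
    have hlsym : ∀ h, ⟪φ, l • S h⟫_ℝ = ⟪φ, h⟫_ℝ := by
      intro h
      have e1 : ⟪l • S φ, h⟫_ℝ = l * ⟪S φ, h⟫_ℝ := by
        rw [inner_smul_left]; simp
      rw [inner_smul_right, ← hsym φ h, ← e1, ← hφl]
    have key : ∀ u : H, ⟪φ, u - (l • S - P) u⟫_ℝ = ⟪φ, u⟫_ℝ * ‖φ‖ ^ 2 := by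
      intro u
      have e1 : (l • S - P) u = l • S u - ⟪φ, u⟫_ℝ • φ := by
        simp [hPval]
      rw [e1, inner_sub_right, inner_sub_right, hlsym, inner_smul_right,
        real_inner_self_eq_norm_sq]
      ring
    have hinj : ∀ u, u = (l • S - P) u → u = 0 := by
      intro u hu
      have h1 := key u
      rw [← hu, sub_self, inner_zero_right] at h1
      have h2 : ⟪φ, u⟫_ℝ = 0 := by
        rcases mul_eq_zero.mp h1.symm with h | h
        · exact h
        · exact absurd h hn
      have h3 : u = l • S u := by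
        have e1 : (l • S - P) u = l • S u := by
          simp [hPval, h2]
        rw [← e1]; exact hu
      obtain ⟨c, hc⟩ := hsim u h3
      rw [hc, inner_smul_right, real_inner_self_eq_norm_sq] at h2
      rcases mul_eq_zero.mp h2 with h | h
      · rw [hc, h, zero_smul]
      · exact absurd h hn
    obtain ⟨q, hq⟩ := fre_aux _ hT hinj F
    refine ⟨q, ?_⟩
    have h1 := key q
    rw [hq, real_inner_comm, hF] at h1
    have h2 : ⟪φ, q⟫_ℝ = 0 := by
      rcases mul_eq_zero.mp h1.symm with h | h
      · exact h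
      · exact absurd h hn
    have e1 : (l • S - P) q = l • S q := by
      simp [hPval, h2]
    rw [← e1]; exact hq

end Pool.Agent.BE01.H69
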